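import Pool.Agent.W747.AO.Block
set_option autoImplicit false
open MeasureTheory Set Filter Topology

namespace Pool.Agent.W747.AO

lemma anal_lip {f : ℝ → ℝ} (hf : AnalyticOnNhd ℝ f (Icc (0:ℝ) 1)) :
    ∃ B : ℝ, 0 ≤ B ∧ ∀ x ∈ Icc (0:ℝ) 1, ∀ y ∈ Icc (0:ℝ) 1, |f x - f y| ≤ B * |x - y| := by
  have hd : ContinuousOn (deriv f) (Icc (0:ℝ) 1) := hf.deriv.continuousOn
  obtain ⟨C, hC⟩ := isCompact_Icc.exists_bound_of_continuousOn hd
  refine ⟨C, (norm_nonneg _).trans (hC 0 (by simp)), fun x hx y hy => ?_⟩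
  have := Convex.norm_image_sub_le_of_norm_deriv_le (f := f) (C := C) (s := Icc (0:ℝ) 1)
    (fun z hz => (hf z hz).differentiableAt) hC (convex_Icc _ _) hy hx
  simpa [Real.norm_eq_abs] using this

lemma ee_int (a : ℕ) : ∫ x in Icc (0:ℝ) 1, ee a x = Real.sqrt (2^(a+1)) * (1/2^(a+1)) := by
  rw [(ee_dy a).setInt]
  unfold ee
  rw [integral_const_mul, ind_integral]

lemma anal_low {f : ℝ → ℝ} (hf : AnalyticOnNhd ℝ f (Icc (0:ℝ) 1))
    (hne : ∃ x ∈ Icc (0:ℝ) 1, f x ≠ 0) :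
    ∃ a0 : ℕ, ∀ a ≥ a0, ((1:ℝ)/2^(a+1))^a ≤ |∫ x in Icc (0:ℝ) 1, f x * ee a x| := by
  have h0 : AnalyticAt ℝ f 0 := hf 0 (by simp)
  have hnz : ¬ ∀ᶠ z in 𝓝 (0:ℝ), f z = 0 := by
    intro hc
    obtain ⟨x, hx, hfx⟩ := hne
    exact hfx (hf.eqOn_zero_of_preconnected_of_eventuallyEq_zero isPreconnected_Icc
      (by simp : (0:ℝ) ∈ Icc (0:ℝ) 1) hc hx)
  obtain ⟨m, g, hg, hg0, hfg⟩ := h0.exists_eventuallyEq_pow_smul_nonzero_iff.mpr hnz
  obtain ⟨σ, hσ, hσg⟩ : ∃ σ : ℝ, |σ| = 1 ∧ σ * g 0 = |g 0| := by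
    rcases lt_or_gt_of_ne hg0 with h | h
    · exact ⟨-1, by norm_num, by rw [abs_of_neg h]; ring⟩
    · exact ⟨1, by norm_num, by rw [abs_of_pos h]; ring⟩
  set c := |g 0| / 2 with hc
  have hcpos : 0 < c := by have := abs_pos.mpr hg0; positivity
  have hev : ∀ᶠ z in 𝓝 (0:ℝ), c < σ * g z := by
    have hcont : ContinuousAt (fun z => σ * g z) 0 := hg.continuousAt.const_mul σ
    apply hcont.eventually_const_lt
    show c < σ * g 0
    rw [hσg, hc]; have := abs_pos.mpr hg0; linarith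
  obtain ⟨δ, hδ, hball⟩ := Metric.eventually_nhds_iff.mp (hfg.and hev)
  obtain ⟨l, hl⟩ := exists_pow_lt_of_lt_one (lt_min hδ hcpos) (by norm_num : (1/2:ℝ) < 1)
  have hfi : IntegrableOn f (Icc (0:ℝ) 1) := hf.continuousOn.integrableOn_Icc
  refine ⟨max l (m+2), fun a ha => ?_⟩
  have hal : l ≤ a := (le_max_left _ _).trans ha
  have ham : m + 2 ≤ a := (le_max_right _ _).trans ha
  have h2a : (1:ℝ)/2^a < min δ c := by
    refine (one_div_pow_anti hal).trans_lt ?_
    rw [div_pow, one_pow] at hl; exact hl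
  have h2a1 : (1:ℝ)/2^a < δ := h2a.trans_le (min_le_left _ _)
  have h2a2 : (1:ℝ)/2^a < c := h2a.trans_le (min_le_right _ _)
  set y : ℝ := 1/2^(a+1) with hy
  have hy0 : 0 < y := by positivity
  have hy1 : y ≤ 1 := by
    rw [hy, div_le_one (by positivity)]; exact one_le_pow₀ (by norm_num)
  have hyc : y ≤ c := (one_div_pow_anti (Nat.le_succ a)).trans h2a2.le
  -- lower bound of the integral
  have hmono : ∫ x in Icc (0:ℝ) 1, (c * y^m) * ee a x
      ≤ ∫ x in Icc (0:ℝ) 1, σ * (f x * ee a x) := by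
    apply integral_mono
    · exact ((ee_dy a).integrable.integrableOn).const_mul _
    · exact ((ee_dy a).intOn hfi).const_mul _
    · intro x
      simp only []
      by_cases hx : fl (a+1) x = 1
      · have hx1 := fl_one_lt hx
        have hx2 := le_of_fl_one hx
        have hxpos : 0 < x := lt_of_lt_of_le hy0 hx2
        obtain ⟨e1, e2⟩ := hball (y := x) (by
          rw [Real.dist_eq, sub_zero, abs_of_pos hxpos]; linarith)
        rw [sub_zero, smul_eq_mul] at e1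
        rw [e1]
        have he : 0 ≤ ee a x := by unfold ee ind; rw [if_pos hx]; positivity
        have h1 : c * y^m ≤ σ * g x * x^m := by
          apply mul_le_mul e2.le _ (by positivity) (by linarith)
          exact pow_le_pow_left₀ hy0.le hx2 m
        calc c * y^m * ee a x ≤ (σ * g x * x^m) * ee a x := mul_le_mul_of_nonneg_right h1 he
          _ = σ * (x ^ m * g x * ee a x) := by ring
      · rw [ee_zero hx]; simp
  rw [integral_const_mul, integral_const_mul, ee_int] at hmono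
  have h3 : σ * ∫ x in Icc (0:ℝ) 1, f x * ee a x ≤ |∫ x in Icc (0:ℝ) 1, f x * ee a x| := by
    calc σ * ∫ x in Icc (0:ℝ) 1, f x * ee a x ≤ |σ * ∫ x in Icc (0:ℝ) 1, f x * ee a x| :=
          le_abs_self _
      _ = _ := by rw [abs_mul, hσ, one_mul]
  refine le_trans ?_ (hmono.trans h3)
  have h4 : 1 ≤ Real.sqrt (2^(a+1)) := by
    rw [Real.one_le_sqrt]; exact one_le_pow₀ (by norm_num)
  have h5 : y^a ≤ c * y^m * y := by
    have e : a = (m + 1 + 1) + (a - (m+2)) := by omega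
    rw [e, pow_add]
    have : y^(a - (m+2)) ≤ 1 := pow_le_one₀ hy0.le hy1
    calc y^(m+1+1) * y^(a-(m+2)) ≤ y^(m+1+1) * 1 := mul_le_mul_of_nonneg_left this (by positivity)
      _ = (y^m * y) * y := by ring
      _ ≤ (y^m * y) * c := mul_le_mul_of_nonneg_left hyc (by positivity)
      _ = c * y^m * y := by ring
  refine h5.trans ?_
  have h6 : 0 ≤ c * y^m := by positivity
  apply mul_le_mul_of_nonneg_left _ h6
  rw [hy]
  have : (0:ℝ) < 1/2^(a+1) := by positivity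
  nlinarith

end Pool.Agent.W747.AO
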