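import Pool.Agent.W747.AO.Osc
set_option autoImplicit false
open MeasureTheory Set

namespace Pool.Agent.W747.AO

/-- a function integrable on `[0,1]` orthogonal to all dyadic cells away from `0` is zero a.e. -/
lemma compl {g : ℝ → ℝ} (hg : IntegrableOn g (Icc (0:ℝ) 1))
    (h : ∀ (l : ℕ) (p : ℕ), 1 ≤ p → p < 2^l →
      ∫ x in Icc (0:ℝ) 1, g x * ind l (p:ℤ) x = 0) :
    g =ᵐ[volume.restrict (Icc (0:ℝ) 1)] 0 := by
  have key : ∀ᵐ x ∂volume, x ∈ Ioo (0:ℝ) 1 → g x = 0 := by
    apply isOpen_Ioo.ae_eq_zero_of_integral_contDiff_smul_eq_zero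
    · exact (hg.mono_set Ioo_subset_Icc_self).locallyIntegrableOn
    · intro φ hφ hφc hφs
      have hz : ∀ x, x ∉ Ioo (0:ℝ) 1 → φ x = 0 := fun x hx => by
        by_contra hc
        exact hx (hφs (subset_tsupport φ hc))
      have hcont : Continuous φ := hφ.continuous
      have huc : UniformContinuous φ := hφc.uniformContinuous_of_continuous hcont
      have e0 : ∫ x, φ x • g x = ∫ x in Icc (0:ℝ) 1, g x * φ x := by
        rw [← setIntegral_eq_integral_of_forall_compl_eq_zero (s := Icc (0:ℝ) 1)]
        · exact integral_congr_ae (Filter.Eventually.of_forall fun x => by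
            simp only [smul_eq_mul]; ring)
        · intro x hx
          rw [hz x (fun h' => hx (Ioo_subset_Icc_self h')), zero_smul]
      rw [e0]
      -- bound by ε
      set A := ∫ x in Icc (0:ℝ) 1, |g x| with hA
      have hA0 : 0 ≤ A := integral_nonneg fun x => abs_nonneg _
      by_contra hne
      have hpos : 0 < |∫ x in Icc (0:ℝ) 1, g x * φ x| := abs_pos.mpr hne
      set ε := |∫ x in Icc (0:ℝ) 1, g x * φ x| / (2 * (A + 1)) with hε
      have hεpos : 0 < ε := by positivity
      obtain ⟨δ, hδ, hδε⟩ := Metric.uniformContinuous_iff.mp huc ε hεpos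
      obtain ⟨l, hl⟩ := exists_pow_lt_of_lt_one hδ (by norm_num : (1/2:ℝ) < 1)
      -- step approximation
      set s : ℝ → ℝ := fun x => ∑ p ∈ Finset.range (2^l), φ ((p:ℝ)/2^l) * ind l (p:ℤ) x with hs
      have hsD : Dy l s := Dy.sum fun p hp =>
        (Dy.ind (by positivity) (by have := Finset.mem_range.mp hp; exact_mod_cast this)).smul _
      have hsx : ∀ x ∈ Ico (0:ℝ) 1, s x = φ ((fl l x : ℝ) / 2^l) := by
        intro x hx
        have hfl0 : 0 ≤ fl l x := by
          unfold fl; apply Int.floor_nonneg.mpr; have := hx.1; positivity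
        have hfl1 : fl l x < 2^l := by
          unfold fl; rw [Int.floor_lt]; push_cast
          have h2 : (0:ℝ) < 2^l := by positivity
          nlinarith [hx.2]
        obtain ⟨n, hn⟩ := Int.eq_ofNat_of_zero_le hfl0
        have hn1 : n < 2^l := by rw [hn] at hfl1; exact_mod_cast hfl1
        simp only [hs]
        rw [Finset.sum_eq_single n]
        · unfold AO.ind
          rw [if_pos hn, mul_one, hn]; push_cast; rfl
        · intro b _ hb
          unfold AO.ind
          rw [if_neg, mul_zero]
          rw [hn]; intro e; apply hb; exact_mod_cast e.symm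
        · intro hc; exact absurd (Finset.mem_range.mpr hn1) hc
      have hs0 : ∫ x in Icc (0:ℝ) 1, g x * s x = 0 := by
        have e : (fun x => g x * s x) = fun x => ∑ p ∈ Finset.range (2^l),
            φ ((p:ℝ)/2^l) * (g x * ind l (p:ℤ) x) := by
          funext x; simp only [hs]; rw [Finset.mul_sum]
          exact Finset.sum_congr rfl fun p _ => by ring
        rw [e, integral_finsetSum]
        · apply Finset.sum_eq_zero
          intro p hp
          rw [integral_const_mul]
          rcases Nat.eq_zero_or_pos p with hp0 | hp0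
          · subst hp0
            rw [hz _ (by simp), zero_mul]
          · rw [h l p hp0 (Finset.mem_range.mp hp), mul_zero]
        · intro p hp
          exact ((Dy.ind (by positivity)
            (by have := Finset.mem_range.mp hp; exact_mod_cast this)).intOn hg).const_mul _
      have hgφ : IntegrableOn (fun x => g x * φ x) (Icc (0:ℝ) 1) := by
        obtain ⟨C, hC⟩ := hφc.exists_bound_of_continuous hcont
        exact Integrable.mul_bdd (c := C) hg hcont.aestronglyMeasurable
          (Filter.Eventually.of_forall hC)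
      have e1 : ∫ x in Icc (0:ℝ) 1, g x * φ x
          = ∫ x in Icc (0:ℝ) 1, (g x * φ x - g x * s x) := by
        rw [integral_sub hgφ (hsD.intOn hg), hs0, sub_zero]
      have hb : ∀ x ∈ Icc (0:ℝ) 1, ‖g x * φ x - g x * s x‖ ≤ ε * |g x| := by
        intro x hx
        rw [Real.norm_eq_abs, ← mul_sub, abs_mul, mul_comm]
        apply mul_le_mul_of_nonneg_right _ (abs_nonneg _)
        by_cases hx1 : x ∈ Ico (0:ℝ) 1
        · rw [hsx x hx1]
          have p2 : (0:ℝ) < 2^l := by positivity
          obtain ⟨g1, g2⟩ := fl_eq_iff.mp (rfl : fl l x = fl l x)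
          have hle : (fl l x : ℝ) / 2^l ≤ x := by
            rw [div_le_iff₀ p2]; linarith
          have hge : x - (fl l x : ℝ) / 2^l < δ := by
            have : x - (fl l x : ℝ) / 2^l ≤ (1/2)^l := by
              rw [sub_le_iff_le_add, div_pow, one_pow, ← add_div, le_div_iff₀ p2]; linarith
            linarith
          have := hδε (a := x) (b := (fl l x : ℝ) / 2^l) (by
            rw [Real.dist_eq, abs_of_nonneg (by linarith)]; exact hge)
          rw [Real.dist_eq] at this
          exact this.le
        · have h1 : φ x = 0 := hz x (fun h' => hx1 ⟨h'.1.le, h'.2⟩)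
          have h2 : s x = 0 := hsD.2 x hx1
          rw [h1, h2, sub_zero, abs_zero]; exact hεpos.le
      have h2 : |∫ x in Icc (0:ℝ) 1, g x * φ x| ≤ ε * A := by
        rw [e1, hA, ← integral_const_mul, ← Real.norm_eq_abs]
        apply norm_integral_le_of_norm_le (hg.abs.const_mul ε)
        exact (ae_restrict_mem measurableSet_Icc).mono fun x hx => hb x hx
      have h3 : ε * A < |∫ x in Icc (0:ℝ) 1, g x * φ x| := by
        rw [hε, div_mul_eq_mul_div, div_lt_iff₀ (by positivity)]
        nlinarith
      linarith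
  have h01 : ∀ᵐ x ∂volume, x ≠ (0:ℝ) ∧ x ≠ (1:ℝ) := by
    have a1 : ∀ᵐ x ∂(volume : Measure ℝ), x ≠ 0 := by
      simp [ae_iff]
    have a2 : ∀ᵐ x ∂(volume : Measure ℝ), x ≠ 1 := by
      simp [ae_iff]
    filter_upwards [a1, a2] with x h1 h2 using ⟨h1, h2⟩
  rw [Filter.EventuallyEq, ae_restrict_iff' measurableSet_Icc]
  filter_upwards [key, h01] with x h1 h2 h3
  exact h1 ⟨lt_of_le_of_ne h3.1 h2.1.symm, lt_of_le_of_ne h3.2 h2.2⟩

end Pool.Agent.W747.AO
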