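import Pool.Agent.W747.AO.Block
set_option autoImplicit false
open MeasureTheory Set

namespace Pool.Agent.W747.AO

lemma gs {n : ℕ} {φ : ℕ → ℝ → ℝ} {L a : ℕ} (h : OK n φ L a) {u : ℝ → ℝ} {L1 a1 : ℕ}
    (hu : Dy L1 u) (hv : ∀ x < 1/2^a1, u x = 0) :
    ∃ n' φ' L' a', n ≤ n' ∧ a ≤ a' ∧ (∀ i < n, φ' i = φ i) ∧ OK n' φ' L' a' ∧
      ∀ g : ℝ → ℝ, IntegrableOn g (Icc (0:ℝ) 1) →
        (∀ i < n', ∫ x in Icc (0:ℝ) 1, g x * φ' i x = 0) →
        ∫ x in Icc (0:ℝ) 1, g x * u x = 0 := by
  set c : ℕ → ℝ := fun i => ∫ x, u x * φ i x with hc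
  set v : ℝ → ℝ := fun x => u x - ∑ i ∈ Finset.range n, c i * φ i x with hvdef
  set L' := max L L1
  set a' := max a a1
  have hsumdy : Dy L' (fun x => ∑ i ∈ Finset.range n, c i * φ i x) :=
    Dy.sum fun i hi => ((h.dy i (Finset.mem_range.mp hi)).mono (le_max_left _ _)).smul _
  have hvdy : Dy L' v := (hu.mono (le_max_right _ _)).sub hsumdy
  have hvv : ∀ x < 1/2^a', v x = 0 := by
    intro x hx
    have h1 : u x = 0 := hv x (lt_of_lt_of_le hx (one_div_pow_anti (le_max_right _ _)))
    have h2 : ∑ i ∈ Finset.range n, c i * φ i x = 0 := Finset.sum_eq_zero fun i hi => by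
      rw [h.van i (Finset.mem_range.mp hi) x
        (lt_of_lt_of_le hx (one_div_pow_anti (le_max_left _ _))), mul_zero]
    simp only [hvdef]; rw [h1, h2, sub_zero]
  have hcross : ∀ i < n, ∫ x, φ i x * v x = 0 := by
    intro i hi
    have e : (fun x => φ i x * v x) = fun x => u x * φ i x
        - ∑ k ∈ Finset.range n, c k * (φ k x * φ i x) := by
      funext x; simp only [hvdef]; rw [mul_sub, Finset.mul_sum, mul_comm (φ i x) (u x)]
      congr 1
      exact Finset.sum_congr rfl fun k _ => by ring
    have hi1 : Integrable (fun x => u x * φ i x) :=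
      ((hu.mono (le_max_right L L1)).mul ((h.dy i hi).mono (le_max_left L L1))).integrable
    have hi2 : ∀ k ∈ Finset.range n, Integrable (fun x => c k * (φ k x * φ i x)) := fun k hk =>
      (((h.dy k (Finset.mem_range.mp hk)).mul (h.dy i hi)).smul _).integrable
    rw [e, integral_sub hi1 (integrable_finsetSum _ hi2), integral_finsetSum _ hi2,
      Finset.sum_eq_single i]
    · rw [integral_const_mul, h.on i hi i hi, if_pos rfl, mul_one]; exact sub_self _
    · intro k hk hki
      rw [integral_const_mul, h.on k (Finset.mem_range.mp hk) i hi, if_neg hki, mul_zero]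
    · intro hc; exact absurd (Finset.mem_range.mpr hi) hc
  have key : ∀ g : ℝ → ℝ, IntegrableOn g (Icc (0:ℝ) 1) →
      (∀ i < n, ∫ x in Icc (0:ℝ) 1, g x * φ i x = 0) →
      ∫ x in Icc (0:ℝ) 1, g x * v x = 0 → ∫ x in Icc (0:ℝ) 1, g x * u x = 0 := by
    intro g hg h1 h2
    have e : (fun x => g x * u x) = fun x => g x * v x
        + ∑ i ∈ Finset.range n, c i * (g x * φ i x) := by
      funext x
      have : ∑ i ∈ Finset.range n, c i * (g x * φ i x)
          = g x * ∑ i ∈ Finset.range n, c i * φ i x := by
        rw [Finset.mul_sum]; exact Finset.sum_congr rfl fun k _ => by ring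
      rw [this]; simp only [hvdef]; ring
    have hi2 : ∀ i ∈ Finset.range n, Integrable (fun x => c i * (g x * φ i x))
        (volume.restrict (Icc (0:ℝ) 1)) := fun i hi =>
      ((h.dy i (Finset.mem_range.mp hi)).intOn hg).const_mul _
    rw [e, integral_add (hvdy.intOn hg) (integrable_finsetSum _ hi2), integral_finsetSum _ hi2,
      h2, zero_add]
    exact Finset.sum_eq_zero fun i hi => by
      rw [integral_const_mul, h1 i (Finset.mem_range.mp hi), mul_zero]
  have hs0 : 0 ≤ ∫ x, v x * v x := integral_nonneg fun x => mul_self_nonneg _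
  rcases hs0.eq_or_lt with hs | hs
  · refine ⟨n, φ, L', a', le_rfl, le_max_left _ _, fun _ _ => rfl,
      h.mono (le_max_left _ _) (le_max_left _ _), fun g hg h1 => key g hg h1 ?_⟩
    have hv0 : (fun x => v x * v x) =ᵐ[volume] 0 :=
      (integral_eq_zero_iff_of_nonneg (fun x => mul_self_nonneg (v x))
        (hvdy.mul hvdy).integrable).mp hs.symm
    have : (fun x => g x * v x) =ᵐ[volume.restrict (Icc (0:ℝ) 1)] fun _ => 0 := by
      apply ae_restrict_of_ae
      filter_upwards [hv0] with x hx
      have : v x = 0 := by simpa using hx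
      rw [this, mul_zero]
    rw [integral_congr_ae this, integral_zero]
  · set s := ∫ x, v x * v x with hsdef
    have hsq : 0 < Real.sqrt s := Real.sqrt_pos.mpr hs
    have hss : Real.sqrt s * Real.sqrt s = s := Real.mul_self_sqrt hs.le
    have hOK : OK (n+1) (app n φ (fun _ x => (1/Real.sqrt s) * v x)) L' a' := by
      apply h.append (le_max_left _ _) (le_max_left _ _)
      · intro i _; exact hvdy.smul _
      · intro i _ x hx; rw [hvv x hx, mul_zero]
      · intro i hi j hj
        have hij : i = j := by omega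
        rw [if_pos hij]
        have e : (fun x => (1/Real.sqrt s) * v x * ((1/Real.sqrt s) * v x))
            = fun x => (1/Real.sqrt s * (1/Real.sqrt s)) * (v x * v x) := by funext x; ring
        rw [e, integral_const_mul, ← hsdef]
        field_simp
        nlinarith
      · intro i hi j _
        have e : (fun x => φ i x * ((1/Real.sqrt s) * v x))
            = fun x => (1/Real.sqrt s) * (φ i x * v x) := by funext x; ring
        rw [e, integral_const_mul, hcross i hi, mul_zero]
    refine ⟨n+1, _, L', a', Nat.le_succ n, le_max_left _ _, fun i hi => app_lt hi, hOK,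
      fun g hg h1 => key g hg (fun i hi => ?_) ?_⟩
    · have := h1 i (by omega)
      rw [app_lt hi] at this; exact this
    · have h2 := h1 n (by omega)
      have e0 : app n φ (fun _ x => (1/Real.sqrt s) * v x) n
          = fun x => (1/Real.sqrt s) * v x := by
        have := app_add (n := n) (φ := φ) (ψ := fun _ x => (1/Real.sqrt s) * v x) 0
        rwa [Nat.add_zero] at this
      rw [e0] at h2
      have e : (fun x => g x * ((1/Real.sqrt s) * v x))
            = fun x => (1/Real.sqrt s) * (g x * v x) := by funext x; ring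
      rw [e, integral_const_mul] at h2
      rcases mul_eq_zero.mp h2 with h3 | h3
      · exfalso; have : 0 < 1 / Real.sqrt s := by positivity
        linarith
      · exact h3

end Pool.Agent.W747.AO
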