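import Pool.Agent.W747.AO.Block2
import Pool.Agent.W747.AO.GS
import Pool.Agent.W747.AO.Compl
set_option autoImplicit false
open MeasureTheory Set Filter Topology

namespace Pool.Agent.W747.AO

lemma BP.mono {n n1 n2 : ℕ} {φ1 φ2 : ℕ → ℝ → ℝ} {a j : ℕ} {B ρ : ℝ} {bad : Set ℝ}
    (h : BP n n1 φ1 a j B ρ bad) (hn : n1 ≤ n2) (he : ∀ i < n1, φ2 i = φ1 i) :
    BP n n2 φ2 a j B ρ bad := by
  intro f h1 h2 h3 x hx hxb
  obtain ⟨m, hm1, hm2, hm3⟩ := h f h1 h2 h3 x hx hxb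
  refine ⟨m, hm1, hm2.trans hn, hm3.trans_eq ?_⟩
  congr 1
  refine Finset.sum_congr rfl fun i hi => ?_
  rw [he i (by have := (Finset.mem_Ico.mp hi).2; omega)]

/-- state of the recursion -/
structure St where
  n : ℕ
  φ : ℕ → ℝ → ℝ
  L : ℕ
  a : ℕ
  ok : OK n φ L a

noncomputable def rho (a : ℕ) : ℝ := ((1:ℝ)/2^(a+1))^a

lemma rho_pos (a : ℕ) : 0 < rho a := by unfold rho; positivity

def R (k : ℕ) (S S' : St) : Prop :=
  S.n < S'.n ∧ (∀ i < S.n, S'.φ i = S.φ i) ∧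
  (∃ a, k < a ∧ ∃ bad : Set ℝ, volume bad ≤ ENNReal.ofReal (1/((k:ℝ)+1)) ∧
    BP S.n S'.n S'.φ a (Nat.unpair k).1 k (rho a) bad) ∧
  (∀ g : ℝ → ℝ, IntegrableOn g (Icc (0:ℝ) 1) →
    (∀ i < S'.n, ∫ x in Icc (0:ℝ) 1, g x * S'.φ i x = 0) →
    1 ≤ (Nat.unpair k).2 → (Nat.unpair k).2 < 2^(Nat.unpair k).1 →
    ∫ x in Icc (0:ℝ) 1, g x * ind (Nat.unpair k).1 ((Nat.unpair k).2 : ℤ) x = 0)

lemma step (k : ℕ) (S : St) : ∃ S', R k S S' := by
  have h1 : OK S.n S.φ S.L (max S.a (k+1)) := S.ok.mono le_rfl (le_max_left _ _)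
  have hj : (Nat.unpair k).1 < max S.a (k+1) := by
    have := Nat.unpair_left_le k
    have := le_max_right S.a (k+1)
    omega
  obtain ⟨n1, φ1, L1, hn1, he1, hok1, bad, hbad, hBP⟩ := block h1 hj (B := (k:ℝ))
    (ρ := rho (max S.a (k+1))) (δ := 1/((k:ℝ)+1)) (by positivity) (rho_pos _) (by positivity)
  have hk : k < max S.a (k+1) := by
    have := le_max_right S.a (k+1)
    omega
  by_cases hc : 1 ≤ (Nat.unpair k).2 ∧ (Nat.unpair k).2 < 2^(Nat.unpair k).1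
  · have hu : Dy (Nat.unpair k).1 (ind (Nat.unpair k).1 ((Nat.unpair k).2 : ℤ)) :=
      Dy.ind (by positivity) (by exact_mod_cast hc.2)
    have hv : ∀ x < 1/2^(Nat.unpair k).1,
        ind (Nat.unpair k).1 ((Nat.unpair k).2 : ℤ) x = 0 := by
      intro x hx
      unfold ind
      rw [if_neg]
      intro h
      rw [fl_eq_iff] at h
      have h2 : (1:ℝ) ≤ ((Nat.unpair k).2 : ℤ) := by exact_mod_cast hc.1
      rw [lt_div_iff₀ (by positivity)] at hx
      linarith [h.1]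
    obtain ⟨n2, φ2, L2, a2, hn2, _, he2, hok2, hg⟩ := gs hok1 hu hv
    refine ⟨⟨n2, φ2, L2, a2, hok2⟩, lt_of_lt_of_le hn1 hn2, fun i hi => ?_,
      ⟨_, hk, bad, hbad, hBP.mono hn2 he2⟩, fun g hgi hgo _ _ => hg g hgi hgo⟩
    show φ2 i = S.φ i
    rw [he2 i (lt_trans hi hn1), he1 i hi]
  · refine ⟨⟨n1, φ1, L1, _, hok1⟩, hn1, he1, ⟨_, hk, bad, hbad, hBP⟩, fun g _ _ h3 h4 => ?_⟩
    exact absurd ⟨h3, h4⟩ hc

lemma exists_system : ∃ (Φ : ℕ → ℝ → ℝ) (n : ℕ → ℕ) (bad : ℕ → Set ℝ),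
    (∀ k, k ≤ n k) ∧
    (∀ i, ∃ L, Dy L (Φ i)) ∧
    (∀ i j, ∫ x, Φ i x * Φ j x = if i = j then 1 else 0) ∧
    (∀ k, volume (bad k) ≤ ENNReal.ofReal (1/((k:ℝ)+1))) ∧
    (∀ k, ∃ a, k < a ∧ BP (n k) (n (k+1)) Φ a (Nat.unpair k).1 k (rho a) (bad k)) ∧
    (∀ g : ℝ → ℝ, IntegrableOn g (Icc (0:ℝ) 1) →
      (∀ i, ∫ x in Icc (0:ℝ) 1, g x * Φ i x = 0) →
      ∀ l p : ℕ, 1 ≤ p → p < 2^l → ∫ x in Icc (0:ℝ) 1, g x * ind l (p : ℤ) x = 0) := by
  choose F hF using step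
  let S0 : St := ⟨0, fun _ _ => 0, 0, 0, ⟨fun i hi => by omega, fun i hi => by omega,
    fun i hi => by omega⟩⟩
  let seq : ℕ → St := fun k => Nat.rec S0 (fun k S => F k S) k
  have hseq : ∀ k, R k (seq k) (seq (k+1)) := fun k => hF k (seq k)
  have hmono : StrictMono fun k => (seq k).n := strictMono_nat_of_lt_succ fun k => (hseq k).1
  have hagree : ∀ k k', k ≤ k' → ∀ i < (seq k).n, (seq k').φ i = (seq k).φ i := by
    intro k k' hkk
    induction k', hkk using Nat.le_induction with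
    | base => intro i _; rfl
    | succ m hm ih =>
      intro i hi
      rw [(hseq m).2.1 i (lt_of_lt_of_le hi (hmono.monotone hm)), ih i hi]
  have hlt : ∀ i, i < (seq (i+1)).n := fun i => lt_of_lt_of_le (Nat.lt_succ_self i)
    (hmono.le_apply (x := i+1))
  have hΦ : ∀ k, ∀ i < (seq k).n, (seq (i+1)).φ i = (seq k).φ i := by
    intro k i hi
    rcases le_total k (i+1) with h | h
    · exact hagree k (i+1) h i hi
    · exact (hagree (i+1) k h i (hlt i)).symm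
  have hbad : ∀ k : ℕ, ∃ bad : Set ℝ, volume bad ≤ ENNReal.ofReal (1/((k:ℝ)+1)) ∧
      ∃ a, k < a ∧ BP (seq k).n (seq (k+1)).n (seq (k+1)).φ a (Nat.unpair k).1 k (rho a) bad := by
    intro k
    obtain ⟨a, ha, bad, h1, h2⟩ := (hseq k).2.2.1
    exact ⟨bad, h1, a, ha, h2⟩
  choose bad hb1 hb2 using hbad
  refine ⟨fun i => (seq (i+1)).φ i, fun k => (seq k).n, bad, fun k => hmono.le_apply,
    fun i => ⟨(seq (i+1)).L, (seq (i+1)).ok.dy i (hlt i)⟩, fun i j => ?_, hb1, fun k => ?_, ?_⟩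
  · have hi : i < (seq (max i j + 1)).n := lt_of_lt_of_le (hlt i)
      (hmono.monotone (Nat.succ_le_succ (le_max_left i j)))
    have hj : j < (seq (max i j + 1)).n := lt_of_lt_of_le (hlt j)
      (hmono.monotone (Nat.succ_le_succ (le_max_right i j)))
    simp only []
    rw [hΦ (max i j + 1) i hi, hΦ (max i j + 1) j hj]
    exact (seq (max i j + 1)).ok.on i hi j hj
  · obtain ⟨a, ha, h⟩ := hb2 k
    exact ⟨a, ha, h.mono le_rfl fun i hi => hΦ (k+1) i hi⟩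
  · intro g hg hgo l p h1 h2
    have := (hseq (Nat.pair l p)).2.2.2 g hg (fun i hi => by
      have e := hΦ (Nat.pair l p + 1) i hi
      have := hgo i
      simp only [] at this
      rw [e] at this
      exact this)
    rw [Nat.unpair_pair] at this
    exact this h1 h2

lemma exists_shell {t : ℝ} (h0 : 0 < t) (h1 : t < 1) : ∃ j : ℕ, fl (j+1) t = 1 := by
  classical
  have hex : ∃ j : ℕ, 1/2^(j+1) ≤ t := by
    obtain ⟨l, hl⟩ := exists_pow_lt_of_lt_one h0 (by norm_num : (1/2:ℝ) < 1)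
    refine ⟨l, (one_div_pow_anti (Nat.le_succ l)).trans ?_⟩
    rw [div_pow, one_pow] at hl; exact hl.le
  refine ⟨Nat.find hex, ?_⟩
  have h2 := Nat.find_spec hex
  have h3 : t < 1/2^(Nat.find hex) := by
    rcases Nat.eq_zero_or_pos (Nat.find hex) with h | h
    · rw [h]; simpa using h1
    · have := Nat.find_min hex (m := Nat.find hex - 1) (by omega)
      rw [Nat.sub_add_cancel h] at this
      push Not at this
      exact this
  rw [fl_eq_iff]
  push_cast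
  rw [div_le_iff₀ (by positivity)] at h2
  rw [lt_div_iff₀ (by positivity)] at h3
  constructor
  · linarith
  · rw [pow_succ]; linarith

end Pool.Agent.W747.AO
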