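import Pool.Agent.W747.AO.Dy
set_option autoImplicit false
open MeasureTheory Set

namespace Pool.Agent.W747.AO

structure Good (K l : ℕ) (p : ℤ) (N : ℕ) (g : ℕ → ℝ → ℝ) : Prop where
  dy : ∀ n < N, Dy (l+K) (g n)
  supp : ∀ n < N, ∀ x, fl l x ≠ p → g n x = 0
  orth : ∀ n < N, ∀ m < N, n ≠ m → ∫ x, g n x * g m x = 0
  pos : ∀ n < N, 0 < ∫ x, g n x * g n x
  mean : ∀ n < N, ∫ x, g n x = 0
  sq : ∀ x, fl l x = p → ∑ n ∈ Finset.range N, g n x * g n x = K
  mid : ∀ x, fl l x = p → ∃ m ≤ N, ∑ n ∈ Finset.range m, g n x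
    = (K + ∑ n ∈ Finset.range N, g n x) / 2

/-- Haar function of the cell `(l,p)` -/
noncomputable def hh (l : ℕ) (p : ℤ) (x : ℝ) : ℝ := ind (l+1) (2*p+1) x - ind (l+1) (2*p) x

lemma hh_integrable (l : ℕ) (p : ℤ) : Integrable (hh l p) :=
  (ind_integrable _ _).sub (ind_integrable _ _)

lemma hh_int (l : ℕ) (p : ℤ) : ∫ x, hh l p x = 0 := by
  unfold hh
  rw [integral_sub (ind_integrable _ _) (ind_integrable _ _), ind_integral, ind_integral, sub_self]

lemma hh_sq (l : ℕ) (p : ℤ) (x : ℝ) : hh l p x * hh l p x = ind l p x := by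
  unfold hh ind
  rw [fl_succ l x]
  set n := fl (l+1) x
  by_cases h1 : n = 2*p+1
  · rw [if_pos h1, if_neg (by omega), if_pos (by omega)]; norm_num
  · by_cases h2 : n = 2*p
    · rw [if_neg h1, if_pos h2, if_pos (by omega)]; norm_num
    · rw [if_neg h1, if_neg h2, if_neg (by omega)]; norm_num

lemma hh_dy {l : ℕ} {p : ℤ} (h0 : 0 ≤ p) (h1 : p < 2^l) : Dy (l+1) (hh l p) := by
  have e : (2:ℤ)^(l+1) = 2 * 2^l := by ring
  exact (Dy.ind (by omega) (by omega)).sub (Dy.ind (by omega) (by omega))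

def join (N1 : ℕ) (g1 : ℕ → ℝ → ℝ) (h : ℝ → ℝ) (g2 : ℕ → ℝ → ℝ) : ℕ → ℝ → ℝ :=
  fun n => if n < N1 then g1 n else if n = N1 then h else g2 (n - (N1 + 1))

lemma join_sum (N1 N2 : ℕ) (g1 : ℕ → ℝ → ℝ) (h : ℝ → ℝ) (g2 : ℕ → ℝ → ℝ)
    (F : (ℝ → ℝ) → ℝ) :
    ∑ n ∈ Finset.range (N1 + 1 + N2), F (join N1 g1 h g2 n)
      = (∑ n ∈ Finset.range N1, F (g1 n)) + F h + ∑ n ∈ Finset.range N2, F (g2 n) := by
  rw [Finset.sum_range_add, Finset.sum_range_succ]
  congr 1
  · congr 1
    · refine Finset.sum_congr rfl fun n hn => ?_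
      unfold join; rw [if_pos (Finset.mem_range.mp hn)]
    · unfold join; rw [if_neg (lt_irrefl _), if_pos rfl]
  · refine Finset.sum_congr rfl fun n _ => ?_
    unfold join; rw [if_neg (by omega), if_neg (by omega)]
    congr 2; omega

lemma join_cases {P : (ℝ → ℝ) → Prop} {N1 N2 : ℕ} {g1 : ℕ → ℝ → ℝ} {h : ℝ → ℝ}
    {g2 : ℕ → ℝ → ℝ} (H1 : ∀ n < N1, P (g1 n)) (H : P h) (H2 : ∀ n < N2, P (g2 n)) :
    ∀ n < N1 + 1 + N2, P (join N1 g1 h g2 n) := by
  intro n hn
  unfold join
  split_ifs with h1 h2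
  · exact H1 n h1
  · exact H
  · exact H2 _ (by omega)

lemma good_zero (l : ℕ) (p : ℤ) : Good 0 l p 0 (fun _ _ => 0) where
  dy := by intro n hn; omega
  supp := by intro n hn; omega
  orth := by intro n hn; omega
  pos := by intro n hn; omega
  mean := by intro n hn; omega
  sq := by intro x _; simp
  mid := by intro x _; exact ⟨0, le_refl _, by simp⟩

lemma good_succ {K l : ℕ} {p : ℤ} (hp0 : 0 ≤ p) (hp1 : p < 2^l) {N1 N2 : ℕ} {g1 g2 : ℕ → ℝ → ℝ}
    (G1 : Good K (l+1) (2*p) N1 g1) (G2 : Good K (l+1) (2*p+1) N2 g2) :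
    Good (K+1) l p (N1 + 1 + N2) (join N1 g1 (hh l p) g2) := by
  have s1 : ∀ n < N1, ∀ x, hh l p x * g1 n x = - g1 n x := by
    intro n hn x
    by_cases hx : fl (l+1) x = 2*p
    · have : hh l p x = -1 := by
        unfold hh ind; rw [if_neg (by omega), if_pos hx]; norm_num
      rw [this]; ring
    · rw [G1.supp n hn x hx]; ring
  have s2 : ∀ n < N2, ∀ x, hh l p x * g2 n x = g2 n x := by
    intro n hn x
    by_cases hx : fl (l+1) x = 2*p+1
    · have : hh l p x = 1 := by
        unfold hh ind; rw [if_pos hx, if_neg (by omega)]; norm_num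
      rw [this]; ring
    · rw [G2.supp n hn x hx]; ring
  have s12 : ∀ n < N1, ∀ m < N2, ∀ x, g1 n x * g2 m x = 0 := by
    intro n hn m hm x
    by_cases hx : fl (l+1) x = 2*p
    · rw [G2.supp m hm x (by omega)]; ring
    · rw [G1.supp n hn x hx]; ring
  have i1 : ∀ n < N1, ∫ x, hh l p x * g1 n x = 0 := by
    intro n hn
    simp_rw [s1 n hn]
    rw [integral_neg, G1.mean n hn, neg_zero]
  have i2 : ∀ n < N2, ∫ x, hh l p x * g2 n x = 0 := by
    intro n hn
    simp_rw [s2 n hn]
    exact G2.mean n hn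
  have i12 : ∀ n < N1, ∀ m < N2, ∫ x, g1 n x * g2 m x = 0 := by
    intro n hn m hm
    simp_rw [s12 n hn m hm]
    exact integral_zero _ _
  refine ⟨?_, ?_, ?_, ?_, ?_, ?_, ?_⟩
  · apply join_cases
    · intro n hn; exact (G1.dy n hn).mono (by omega)
    · exact (hh_dy hp0 hp1).mono (by omega)
    · intro n hn; exact (G2.dy n hn).mono (by omega)
  · apply join_cases (P := fun u => ∀ x, fl l x ≠ p → u x = 0)
    · intro n hn x hx
      apply G1.supp n hn x
      intro h; apply hx; rw [fl_succ, h]; omega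
    · intro x hx
      rw [fl_succ] at hx
      unfold hh ind
      rw [if_neg (by omega), if_neg (by omega), sub_zero]
    · intro n hn x hx
      apply G2.supp n hn x
      intro h; apply hx; rw [fl_succ, h]; omega
  · intro n hn m hm hnm
    unfold join
    by_cases a1 : n < N1
    · rw [if_pos a1]
      by_cases b1 : m < N1
      · rw [if_pos b1]; exact G1.orth n a1 m b1 hnm
      · rw [if_neg b1]
        by_cases b2 : m = N1
        · rw [if_pos b2]; simp_rw [mul_comm (g1 n _)]; exact i1 n a1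
        · rw [if_neg b2]; exact i12 n a1 _ (by omega)
    · rw [if_neg a1]
      by_cases a2 : n = N1
      · rw [if_pos a2]
        by_cases b1 : m < N1
        · rw [if_pos b1]; exact i1 m b1
        · rw [if_neg b1, if_neg (by omega)]; exact i2 _ (by omega)
      · rw [if_neg a2]
        by_cases b1 : m < N1
        · rw [if_pos b1]; simp_rw [mul_comm (g2 _ _)]; exact i12 m b1 _ (by omega)
        · rw [if_neg b1]
          by_cases b2 : m = N1
          · rw [if_pos b2]; simp_rw [mul_comm (g2 _ _)]; exact i2 _ (by omega)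
          · rw [if_neg b2]; exact G2.orth _ (by omega) _ (by omega) (by omega)
  · apply join_cases (P := fun u => 0 < ∫ x, u x * u x) G1.pos _ G2.pos
    simp_rw [hh_sq]
    rw [ind_integral]; positivity
  · exact join_cases (P := fun u => ∫ x, u x = 0) G1.mean (hh_int l p) G2.mean
  · intro x hx
    rw [join_sum N1 N2 g1 (hh l p) g2 (fun u => u x * u x)]
    have e : ∀ x, fl l x = p → hh l p x * hh l p x = 1 := by
      intro x hx; rw [hh_sq]; unfold ind; rw [if_pos hx]
    rw [e x hx]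
    rw [fl_succ] at hx
    by_cases h1 : fl (l+1) x = 2*p
    · rw [G1.sq x h1, Finset.sum_eq_zero (s := Finset.range N2)]
      · push_cast; ring
      · intro n hn; rw [G2.supp n (Finset.mem_range.mp hn) x (by omega)]; ring
    · have h2 : fl (l+1) x = 2*p+1 := by omega
      rw [G2.sq x h2, Finset.sum_eq_zero (s := Finset.range N1)]
      · push_cast; ring
      · intro n hn; rw [G1.supp n (Finset.mem_range.mp hn) x (by omega)]; ring
  · intro x hx
    rw [join_sum N1 N2 g1 (hh l p) g2 (fun u => u x)]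
    rw [fl_succ] at hx
    by_cases h1 : fl (l+1) x = 2*p
    · obtain ⟨m, hm, he⟩ := G1.mid x h1
      refine ⟨m, by omega, ?_⟩
      have hh1 : hh l p x = -1 := by
        unfold hh ind; rw [if_neg (by omega), if_pos h1]; norm_num
      have z2 : ∑ n ∈ Finset.range N2, g2 n x = 0 :=
        Finset.sum_eq_zero fun n hn => G2.supp n (Finset.mem_range.mp hn) x (by omega)
      have e1 : ∑ n ∈ Finset.range m, join N1 g1 (hh l p) g2 n x
          = ∑ n ∈ Finset.range m, g1 n x := by
        refine Finset.sum_congr rfl fun n hn => ?_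
        unfold join; rw [if_pos (by have := Finset.mem_range.mp hn; omega)]
      rw [e1, he, hh1, z2]; push_cast; ring
    · have h2 : fl (l+1) x = 2*p+1 := by omega
      obtain ⟨m, hm, he⟩ := G2.mid x h2
      refine ⟨N1 + 1 + m, by omega, ?_⟩
      have hh1 : hh l p x = 1 := by
        unfold hh ind; rw [if_pos h2, if_neg (by omega)]; norm_num
      have z1 : ∑ n ∈ Finset.range N1, g1 n x = 0 :=
        Finset.sum_eq_zero fun n hn => G1.supp n (Finset.mem_range.mp hn) x (by omega)
      rw [join_sum N1 m g1 (hh l p) g2 (fun u => u x), he, hh1, z1]; push_cast; ring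

lemma tree_exists (K : ℕ) : ∀ (l : ℕ) (p : ℤ), 0 ≤ p → p < 2^l → ∃ N g, Good K l p N g := by
  induction K with
  | zero => intro l p _ _; exact ⟨0, _, good_zero l p⟩
  | succ K ih =>
    intro l p h0 h1
    have e : (2:ℤ)^(l+1) = 2 * 2^l := by ring
    obtain ⟨N1, g1, G1⟩ := ih (l+1) (2*p) (by omega) (by omega)
    obtain ⟨N2, g2, G2⟩ := ih (l+1) (2*p+1) (by omega) (by omega)
    exact ⟨_, _, good_succ h0 h1 G1 G2⟩

/-- Normalised interface: orthonormal `h`, coefficients `q` of the big vector. -/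
lemma tree_final {K l : ℕ} {p : ℤ} (hK : 0 < K) (hp0 : 0 ≤ p) (hp1 : p < 2^l) :
    ∃ (N : ℕ) (h : ℕ → ℝ → ℝ) (q : ℕ → ℝ),
      (∀ n < N, Dy (l+K) (h n)) ∧
      (∀ n < N, ∀ x, fl l x ≠ p → h n x = 0) ∧
      (∀ n < N, ∀ m < N, ∫ x, h n x * h m x = if n = m then 1 else 0) ∧
      (∑ n ∈ Finset.range N, q n * q n = 1) ∧
      (∀ x, fl l x = p → ∃ m ≤ N,
        Real.sqrt K / 2 + (∑ n ∈ Finset.range N, q n * h n x) / 2
          ≤ ∑ n ∈ Finset.range m, q n * h n x) := by
  obtain ⟨N, g, G⟩ := tree_exists K l p hp0 hp1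
  set s : ℕ → ℝ := fun n => Real.sqrt (∫ x, g n x * g n x) with hs
  have hspos : ∀ n < N, 0 < s n := fun n hn => Real.sqrt_pos.mpr (G.pos n hn)
  have hss : ∀ n < N, s n * s n = ∫ x, g n x * g n x := fun n hn =>
    Real.mul_self_sqrt (G.pos n hn).le
  -- total
  have htot : ∑ n ∈ Finset.range N, ∫ x, g n x * g n x = K / 2^l := by
    rw [← integral_finsetSum]
    · have e : (fun x => ∑ n ∈ Finset.range N, g n x * g n x) = fun x => (K:ℝ) * ind l p x := by
        funext x
        by_cases hx : fl l x = p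
        · rw [G.sq x hx]; unfold ind; rw [if_pos hx, mul_one]
        · unfold ind; rw [if_neg hx, mul_zero]
          exact Finset.sum_eq_zero fun n hn => by
            rw [G.supp n (Finset.mem_range.mp hn) x hx, zero_mul]
      rw [e, integral_const_mul, ind_integral]; ring
    · intro n hn
      exact ((G.dy n (Finset.mem_range.mp hn)).mul (G.dy n (Finset.mem_range.mp hn))).integrable
  have hKR : (0:ℝ) < K := by exact_mod_cast hK
  set w : ℝ := Real.sqrt (2^l / K) with hw
  have hww : w * w = 2^l / K := Real.mul_self_sqrt (by positivity)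
  have hw0 : 0 ≤ w := Real.sqrt_nonneg _
  have hwK : Real.sqrt K ≤ w * K := by
    have h1 : w * K = Real.sqrt (2^l) * Real.sqrt K := by
      rw [hw, Real.sqrt_div (by positivity)]
      have : Real.sqrt K * Real.sqrt K = K := Real.mul_self_sqrt hKR.le
      have h3 : 0 < Real.sqrt K := Real.sqrt_pos.mpr hKR
      field_simp
      nlinarith
    rw [h1]
    have : 1 ≤ Real.sqrt (2^l) := by
      rw [Real.one_le_sqrt]; exact one_le_pow₀ (by norm_num)
    nlinarith [Real.sqrt_nonneg (K:ℝ)]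
  refine ⟨N, fun n x => (1 / s n) * g n x, fun n => w * s n, ?_, ?_, ?_, ?_, ?_⟩
  · intro n hn; exact (G.dy n hn).smul _
  · intro n hn x hx; simp only []; rw [G.supp n hn x hx, mul_zero]
  · intro n hn m hm
    have e : (fun x => (1 / s n * g n x) * (1 / s m * g m x))
        = fun x => (1 / s n * (1 / s m)) * (g n x * g m x) := by funext x; ring
    rw [e, integral_const_mul]
    split_ifs with hnm
    · subst hnm
      rw [← hss n hn]
      have := hspos n hn
      field_simp
    · rw [G.orth n hn m hm hnm, mul_zero]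
  · have e : ∀ n ∈ Finset.range N, w * s n * (w * s n) = (2^l / K) * ∫ x, g n x * g n x := by
      intro n hn
      rw [← hss n (Finset.mem_range.mp hn), ← hww]; ring
    rw [Finset.sum_congr rfl e, ← Finset.mul_sum, htot]
    field_simp
  · intro x hx
    obtain ⟨m, hm, he⟩ := G.mid x hx
    refine ⟨m, hm, ?_⟩
    have e : ∀ k ≤ N, ∑ n ∈ Finset.range k, w * s n * (1 / s n * g n x)
        = w * ∑ n ∈ Finset.range k, g n x := by
      intro k hk
      rw [Finset.mul_sum]
      refine Finset.sum_congr rfl fun n hn => ?_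
      have := hspos n (lt_of_lt_of_le (Finset.mem_range.mp hn) hk)
      field_simp
    rw [e m hm, e N le_rfl, he]
    linarith

end Pool.Agent.W747.AO
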