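import Pool.Agent.W747.AO.Osc
import Pool.Agent.W747.AO.Tree
set_option autoImplicit false
open MeasureTheory Set

namespace Pool.Agent.W747.AO

structure OK (n : ℕ) (φ : ℕ → ℝ → ℝ) (L a : ℕ) : Prop where
  dy : ∀ i < n, Dy L (φ i)
  van : ∀ i < n, ∀ x < 1/2^a, φ i x = 0
  on : ∀ i < n, ∀ j < n, ∫ x, φ i x * φ j x = if i = j then 1 else 0

def app (n : ℕ) (φ ψ : ℕ → ℝ → ℝ) : ℕ → ℝ → ℝ := fun i => if i < n then φ i else ψ (i - n)

lemma app_lt {n : ℕ} {φ ψ : ℕ → ℝ → ℝ} {i : ℕ} (h : i < n) : app n φ ψ i = φ i := if_pos h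

lemma app_add {n : ℕ} {φ ψ : ℕ → ℝ → ℝ} (i : ℕ) : app n φ ψ (n + i) = ψ i := by
  unfold app; rw [if_neg (by omega)]; congr; omega

lemma one_div_pow_anti {a a' : ℕ} (h : a ≤ a') : (1:ℝ)/2^a' ≤ 1/2^a := by
  apply one_div_le_one_div_of_le (by positivity)
  exact pow_le_pow_right₀ (by norm_num) h

lemma OK.append {n : ℕ} {φ : ℕ → ℝ → ℝ} {L a : ℕ} (h : OK n φ L a) {N : ℕ} {ψ : ℕ → ℝ → ℝ}
    {L' a' : ℕ} (hL : L ≤ L') (ha : a ≤ a') (dy : ∀ i < N, Dy L' (ψ i))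
    (van : ∀ i < N, ∀ x < 1/2^a', ψ i x = 0)
    (on : ∀ i < N, ∀ j < N, ∫ x, ψ i x * ψ j x = if i = j then 1 else 0)
    (cross : ∀ i < n, ∀ j < N, ∫ x, φ i x * ψ j x = 0) : OK (n+N) (app n φ ψ) L' a' := by
  refine ⟨fun i hi => ?_, fun i hi x hx => ?_, fun i hi j hj => ?_⟩
  · by_cases h1 : i < n
    · rw [app_lt h1]; exact (h.dy i h1).mono hL
    · obtain ⟨k, rfl⟩ := Nat.exists_eq_add_of_le (not_lt.mp h1)
      rw [app_add]; exact dy k (by omega)
  · by_cases h1 : i < n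
    · rw [app_lt h1]; exact h.van i h1 x (lt_of_lt_of_le hx (one_div_pow_anti ha))
    · obtain ⟨k, rfl⟩ := Nat.exists_eq_add_of_le (not_lt.mp h1)
      rw [app_add]; exact van k (by omega) x hx
  · by_cases h1 : i < n
    · rw [app_lt h1]
      by_cases h2 : j < n
      · rw [app_lt h2]; exact h.on i h1 j h2
      · obtain ⟨k, rfl⟩ := Nat.exists_eq_add_of_le (not_lt.mp h2)
        rw [app_add, cross i h1 k (by omega), if_neg (by omega)]
    · obtain ⟨k, rfl⟩ := Nat.exists_eq_add_of_le (not_lt.mp h1)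
      rw [app_add]
      by_cases h2 : j < n
      · rw [app_lt h2, if_neg (by omega)]
        simp_rw [mul_comm (ψ k _)]
        exact cross j h2 k (by omega)
      · obtain ⟨k', rfl⟩ := Nat.exists_eq_add_of_le (not_lt.mp h2)
        rw [app_add, on k (by omega) k' (by omega)]
        by_cases hk : k = k'
        · rw [if_pos hk, if_pos (by omega)]
        · rw [if_neg hk, if_neg (by omega)]

lemma OK.mono {n : ℕ} {φ : ℕ → ℝ → ℝ} {L a L' a' : ℕ} (h : OK n φ L a) (hL : L ≤ L')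
    (ha : a ≤ a') : OK n φ L' a' :=
  ⟨fun i hi => (h.dy i hi).mono hL,
   fun i hi x hx => h.van i hi x (lt_of_lt_of_le hx (one_div_pow_anti ha)), h.on⟩

/-- normalised indicator of the cell `[2^{-a-1}, 2^{-a})` -/
noncomputable def ee (a : ℕ) (x : ℝ) : ℝ := Real.sqrt (2^(a+1)) * ind (a+1) 1 x

lemma ee_dy (a : ℕ) : Dy (a+1) (ee a) :=
  (Dy.ind (L := a+1) (p := 1) (by norm_num) (by
    have : (2:ℤ)^(a+1) = 2 * 2^a := by ring
    have h2 : (0:ℤ) < 2^a := by positivity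
    omega)).smul _

lemma ee_sq_int (a : ℕ) : ∫ x, ee a x * ee a x = 1 := by
  have e : (fun x => ee a x * ee a x) = fun x => (2:ℝ)^(a+1) * ind (a+1) 1 x := by
    funext x
    unfold ee
    have : Real.sqrt ((2:ℝ)^(a+1)) * Real.sqrt ((2:ℝ)^(a+1)) = (2:ℝ)^(a+1) :=
      Real.mul_self_sqrt (by positivity)
    unfold ind
    split_ifs
    · linarith
    · ring
  rw [e, integral_const_mul, ind_integral]
  field_simp

lemma ee_zero {a : ℕ} {x : ℝ} (h : fl (a+1) x ≠ 1) : ee a x = 0 := by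
  unfold ee ind; rw [if_neg h, mul_zero]

lemma fl_one_lt {a : ℕ} {x : ℝ} (h : fl (a+1) x = 1) : x < 1/2^a := by
  rw [fl_eq_iff] at h
  rw [lt_div_iff₀ (by positivity)]
  have := h.2
  push_cast at this
  rw [pow_succ] at this
  linarith

lemma le_of_fl_one {l : ℕ} {x : ℝ} (h : fl l x = 1) : 1/2^l ≤ x := by
  rw [fl_eq_iff] at h
  rw [div_le_iff₀ (by positivity)]
  have := h.1
  push_cast at this
  linarith

lemma fam_bdd {N L : ℕ} {u : ℕ → ℝ → ℝ} (h : ∀ n < N, Dy L (u n)) :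
    ∃ C : ℝ, 0 ≤ C ∧ ∀ n < N, ∀ x, |u n x| ≤ C := by
  induction N with
  | zero => exact ⟨0, le_rfl, fun n hn => by omega⟩
  | succ N ih =>
    obtain ⟨C, hC0, hC⟩ := ih (fun n hn => h n (by omega))
    obtain ⟨D, hD0, hD⟩ := (h N (by omega)).bdd
    refine ⟨max C D, le_max_of_le_left hC0, fun n hn x => ?_⟩
    rcases Nat.lt_succ_iff_lt_or_eq.mp hn with h1 | h1
    · exact (hC n h1 x).trans (le_max_left _ _)
    · subst h1; exact (hD x).trans (le_max_right _ _)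

end Pool.Agent.W747.AO
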