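import Pool.Agent.W747.AO.Block
set_option autoImplicit false
open MeasureTheory Set

namespace Pool.Agent.W747.AO

/-- property of a block `[n, n')` of the system -/
def BP (n n' : ℕ) (φ : ℕ → ℝ → ℝ) (a j : ℕ) (B ρ : ℝ) (bad : Set ℝ) : Prop :=
  ∀ f : ℝ → ℝ, ContinuousOn f (Icc (0:ℝ) 1) →
    (∀ x ∈ Icc (0:ℝ) 1, ∀ y ∈ Icc (0:ℝ) 1, |f x - f y| ≤ B * |x - y|) →
    ρ ≤ |∫ x in Icc (0:ℝ) 1, f x * ee a x| →
    ∀ x, fl (j+1) x = 1 → x ∉ bad → ∃ m, n ≤ m ∧ m ≤ n' ∧
      1 ≤ |∑ i ∈ Finset.Ico n m, (∫ s in Icc (0:ℝ) 1, f s * φ i s) * φ i x|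

lemma int5 {f1 f2 f3 f4 f5 : ℝ → ℝ} (h1 : Integrable f1) (h2 : Integrable f2)
    (h3 : Integrable f3) (h4 : Integrable f4) (h5 : Integrable f5) :
    ∫ x, (f1 x - f2 x - f3 x + f4 x + f5 x)
      = (∫ x, f1 x) - (∫ x, f2 x) - (∫ x, f3 x) + (∫ x, f4 x) + ∫ x, f5 x := by
  have a : Integrable (fun x => f1 x - f2 x) := h1.sub h2
  have b : Integrable (fun x => f1 x - f2 x - f3 x) := a.sub h3
  have c : Integrable (fun x => f1 x - f2 x - f3 x + f4 x) := b.add h4
  rw [integral_add c h5, integral_add b h4, integral_sub a h3, integral_sub h1 h2]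

lemma block {n : ℕ} {φ : ℕ → ℝ → ℝ} {L a : ℕ} (h : OK n φ L a) {j : ℕ} (hj : j < a)
    {B ρ δ : ℝ} (hB : 0 ≤ B) (hρ : 0 < ρ) (hδ : 0 < δ) :
    ∃ n' φ' L', n < n' ∧ (∀ i < n, φ' i = φ i) ∧ OK n' φ' L' (a+1) ∧
      ∃ bad : Set ℝ, volume bad ≤ ENNReal.ofReal δ ∧ BP n n' φ' a j B ρ bad := by
  -- choose K
  obtain ⟨K, hK⟩ := exists_nat_ge (max ((8/ρ)^2) (64/δ) + 1)
  have hK1 : (8/ρ)^2 ≤ K := by have := le_max_left ((8/ρ)^2) (64/δ); linarith
  have hK2 : 64/δ ≤ K := by have := le_max_right ((8/ρ)^2) (64/δ); linarith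
  have hKpos : (0:ℝ) < K := by
    have : 0 ≤ (8/ρ)^2 := by positivity
    have := le_max_left ((8/ρ)^2) (64/δ); linarith
  have hKn : 0 < K := by exact_mod_cast hKpos
  have hsK : 8/ρ ≤ Real.sqrt K := by
    apply Real.le_sqrt_of_sq_le; exact hK1
  have hsK0 : 0 < Real.sqrt K := Real.sqrt_pos.mpr hKpos
  have hsKK : Real.sqrt K * Real.sqrt K = K := Real.mul_self_sqrt hKpos.le
  obtain ⟨N, hf, q, hdy, hsupp, hon, hq, hmid⟩ := tree_final (K := K) (l := j+1) (p := 1) hKn
    (by norm_num) (by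
      have : (2:ℤ)^(j+1) = 2 * 2^j := by ring
      have h2 : (0:ℤ) < 2^j := by positivity
      omega)
  set E : ℝ → ℝ := fun x => ∑ i ∈ Finset.range N, q i * hf i x with hE
  have hEdy : Dy (j+1+K) E := Dy.sum fun i hi => (hdy i (Finset.mem_range.mp hi)).smul _
  have hEsupp : ∀ x, fl (j+1) x ≠ 1 → E x = 0 := fun x hx =>
    Finset.sum_eq_zero fun i hi => by rw [hsupp i (Finset.mem_range.mp hi) x hx, mul_zero]
  have hEh : ∀ m < N, ∫ x, E x * hf m x = q m := by
    intro m hm
    have e : (fun x => E x * hf m x) = fun x => ∑ i ∈ Finset.range N, q i * (hf i x * hf m x) := by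
      funext x; simp only [hE]; rw [Finset.sum_mul]
      exact Finset.sum_congr rfl fun i _ => by ring
    rw [e, integral_finsetSum]
    · rw [Finset.sum_eq_single m]
      · rw [integral_const_mul, hon m hm m hm, if_pos rfl, mul_one]
      · intro i hi him
        rw [integral_const_mul, hon i (Finset.mem_range.mp hi) m hm, if_neg him, mul_zero]
      · intro hc; exact absurd (Finset.mem_range.mpr hm) hc
    · intro i hi
      exact (((hdy i (Finset.mem_range.mp hi)).mul (hdy m hm)).smul _).integrable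
  have hEE : ∫ x, E x * E x = 1 := by
    have e : (fun x => E x * E x) = fun x => ∑ i ∈ Finset.range N, q i * (E x * hf i x) := by
      funext x
      conv_lhs => rw [hE]
      simp only []
      rw [Finset.mul_sum]
      exact Finset.sum_congr rfl fun i _ => by simp only [hE]; ring
    rw [e, integral_finsetSum]
    · rw [← hq]
      refine Finset.sum_congr rfl fun i hi => ?_
      rw [integral_const_mul, hEh i (Finset.mem_range.mp hi)]
    · intro i hi
      exact ((hEdy.mul (hdy i (Finset.mem_range.mp hi))).smul _).integrable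
  set r : ℕ → ℝ → ℝ := fun i x => hf i x - q i * E x with hr
  have hrdy : ∀ i < N, Dy (j+1+K) (r i) := fun i hi => (hdy i hi).sub (hEdy.smul _)
  have hrsupp : ∀ i < N, ∀ x, fl (j+1) x ≠ 1 → r i x = 0 := fun i hi x hx => by
    simp only [hr]; rw [hsupp i hi x hx, hEsupp x hx]; ring
  obtain ⟨C, hC0, hC⟩ := fam_bdd hrdy
  -- choose the frequency
  obtain ⟨P, hP⟩ := pow_unbounded_of_one_lt (N * (C * B) * C) (by norm_num : (1:ℝ) < 2)
  set Q : ℕ := P + L + (j+1+K) + (a+1) with hQ
  have hQP : N * (C * B / 2^Q) * C ≤ 1 := by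
    have h1 : (2:ℝ)^P ≤ 2^Q := pow_le_pow_right₀ (by norm_num) (by omega)
    have h2 : N * (C * B) * C ≤ 2^Q := (hP.le).trans h1
    have h3 : (0:ℝ) < 2^Q := by positivity
    have : N * (C * B / 2^Q) * C = (N * (C * B) * C) / 2^Q := by ring
    rw [this, div_le_one h3]; exact h2
  set ψ : ℕ → ℝ → ℝ := fun i x => r i x * rr (Q+1) x + q i * ee a x with hψ
  have hψdy : ∀ i < N, Dy (Q+1) (ψ i) := fun i hi =>
    ((hrdy i hi).mul_rr (by omega)).add ((((ee_dy a).mono (by omega)).smul _))
  -- disjointness of supports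
  have hdis : ∀ x, fl (j+1) x = 1 → ee a x = 0 := by
    intro x hx
    apply ee_zero
    intro hc
    have h1 := fl_one_lt hc
    have h2 := le_of_fl_one hx
    have h3 := one_div_pow_anti (show j+1 ≤ a by omega)
    linarith
  have hre : ∀ i < N, ∀ x, r i x * ee a x = 0 := by
    intro i hi x
    by_cases hx : fl (j+1) x = 1
    · rw [hdis x hx, mul_zero]
    · rw [hrsupp i hi x hx, zero_mul]
  -- orthonormality
  have hψon : ∀ i < N, ∀ k < N, ∫ x, ψ i x * ψ k x = if i = k then 1 else 0 := by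
    intro i hi k hk
    have e : (fun x => ψ i x * ψ k x) = fun x => (hf i x * hf k x - q k * (E x * hf i x)
        - q i * (E x * hf k x) + q i * q k * (E x * E x)) + q i * q k * (ee a x * ee a x) := by
      funext x
      have h1 := hre i hi x
      have h2 := hre k hk x
      have h3 := rr_sq (Q+1) x
      have e1 : ψ i x * ψ k x = (r i x * r k x) * (rr (Q+1) x * rr (Q+1) x)
          + q k * (r i x * ee a x) * rr (Q+1) x + q i * (r k x * ee a x) * rr (Q+1) x
          + q i * q k * (ee a x * ee a x) := by simp only [hψ]; ring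
      rw [e1, h1, h2, h3]; simp only [hr]; ring
    have a1 : Integrable (fun x => hf i x * hf k x) := ((hdy i hi).mul (hdy k hk)).integrable
    have a2 : Integrable (fun x => q k * (E x * hf i x)) :=
      ((hEdy.mul (hdy i hi)).smul _).integrable
    have a3 : Integrable (fun x => q i * (E x * hf k x)) :=
      ((hEdy.mul (hdy k hk)).smul _).integrable
    have a4 : Integrable (fun x => q i * q k * (E x * E x)) :=
      ((hEdy.mul hEdy).smul _).integrable
    have a5 : Integrable (fun x => q i * q k * (ee a x * ee a x)) :=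
      (((ee_dy a).mul (ee_dy a)).smul _).integrable
    rw [e, int5 a1 a2 a3 a4 a5, integral_const_mul, integral_const_mul,
      integral_const_mul, integral_const_mul, hEh i hi, hEh k hk, hEE, ee_sq_int, hon i hi k hk]
    ring
  have hcross : ∀ i < n, ∀ k < N, ∫ x, φ i x * ψ k x = 0 := by
    intro i hi k hk
    have e : (fun x => φ i x * ψ k x) = fun x => (φ i x * r k x) * rr (Q+1) x := by
      funext x
      have : φ i x * ee a x = 0 := by
        by_cases hx : fl (a+1) x = 1
        · rw [h.van i hi x (fl_one_lt hx), zero_mul]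
        · rw [ee_zero hx, mul_zero]
      have e1 : φ i x * ψ k x = (φ i x * r k x) * rr (Q+1) x + q k * (φ i x * ee a x) := by
        simp only [hψ]; ring
      rw [e1, this]; ring
    rw [e]
    exact (((h.dy i hi).mono (show L ≤ Q by omega)).mul
      ((hrdy k hk).mono (by omega))).int_mul_rr (Nat.lt_succ_self Q)
  have hvan : ∀ i < N, ∀ x < 1/2^(a+1), ψ i x = 0 := by
    intro i hi x hx
    have h1 : r i x = 0 := by
      apply hrsupp i hi
      intro hc
      have h2 := le_of_fl_one hc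
      have h3 := one_div_pow_anti (show j+1 ≤ a+1 by omega)
      linarith
    have h2 : ee a x = 0 := by
      apply ee_zero
      intro hc
      have h2 := le_of_fl_one hc
      linarith
    simp only [hψ]; rw [h1, h2]; ring
  have hN : 0 < N := by
    rcases Nat.eq_zero_or_pos N with h0 | h0
    · subst h0; simp at hq
    · exact h0
  have hOK : OK (n+N) (app n φ ψ) (Q+1) (a+1) :=
    h.append (by omega) (by omega) hψdy hvan hψon hcross
  refine ⟨n+N, app n φ ψ, Q+1, by omega, fun i hi => app_lt hi, hOK,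
    {x | (K:ℝ)/64 ≤ E x * E x}, ?_, ?_⟩
  · -- Chebyshev
    have hsub : {x | (K:ℝ)/64 ≤ E x * E x} ⊆ Icc (0:ℝ) 1 := by
      intro x hx
      by_contra hc
      have : E x = 0 := hEdy.2 x (fun h' => hc ⟨h'.1, h'.2.le⟩)
      have hx' : (K:ℝ)/64 ≤ E x * E x := hx
      rw [this] at hx'
      have : 0 < (K:ℝ)/64 := by positivity
      linarith
    have hfin : volume {x | (K:ℝ)/64 ≤ E x * E x} ≠ ⊤ :=
      ne_top_of_le_ne_top (by simp) (measure_mono hsub)
    have hch := mul_meas_ge_le_integral_of_nonneg (μ := volume) (f := fun x => E x * E x)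
      (Filter.Eventually.of_forall fun x => mul_self_nonneg _) ((hEdy.mul hEdy).integrable)
      ((K:ℝ)/64)
    rw [hEE] at hch
    rw [← ENNReal.ofReal_toReal hfin]
    apply ENNReal.ofReal_le_ofReal
    have h1 : (volume {x | (K:ℝ)/64 ≤ E x * E x}).toReal ≤ 64 / K := by
      rw [le_div_iff₀ hKpos]
      have : (volume {x | (K:ℝ)/64 ≤ E x * E x}).toReal
        = volume.real {x | (K:ℝ)/64 ≤ E x * E x} := rfl
      rw [this]
      linarith
    refine h1.trans ?_
    rw [div_le_iff₀ hKpos]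
    rw [div_le_iff₀ hδ] at hK2
    linarith
  · intro f hfc hfL hF x hx hxbad
    obtain ⟨m, hmN, hm⟩ := hmid x hx
    refine ⟨n + m, by omega, by omega, ?_⟩
    rw [Finset.sum_Ico_eq_sum_range]
    have e0 : n + m - n = m := by omega
    rw [e0]
    simp_rw [app_add]
    set F : ℝ := ∫ x in Icc (0:ℝ) 1, f x * ee a x with hFdef
    set η : ℕ → ℝ := fun i => ∫ s in Icc (0:ℝ) 1, f s * (r i s * rr (Q+1) s) with hη
    have hfi : IntegrableOn f (Icc (0:ℝ) 1) := hfc.integrableOn_Icc
    have hcoef : ∀ i < N, ∫ s in Icc (0:ℝ) 1, f s * ψ i s = η i + q i * F := by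
      intro i hi
      have e : (fun s => f s * ψ i s) = fun s => f s * (r i s * rr (Q+1) s)
          + q i * (f s * ee a s) := by funext s; simp only [hψ]; ring
      rw [e, integral_add, integral_const_mul]
      · exact ((hrdy i hi).mul_rr (show j+1+K ≤ Q+1 by omega)).intOn hfi
      · exact ((ee_dy a).intOn hfi).const_mul _
    have hηb : ∀ i < N, |η i| ≤ C * B / 2^Q := fun i hi =>
      osc (hrdy i hi) (by omega) (hC i hi) hC0 hB hfc hfL
    have hee : ee a x = 0 := hdis x hx
    have hψx : ∀ i, ψ i x = r i x * rr (Q+1) x := by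
      intro i; simp only [hψ]; rw [hee]; ring
    have hsum : ∑ i ∈ Finset.range m, (∫ s in Icc (0:ℝ) 1, f s * ψ i s) * ψ i x
        = F * rr (Q+1) x * (∑ i ∈ Finset.range m, q i * hf i x
            - (∑ i ∈ Finset.range m, q i * q i) * E x)
          + ∑ i ∈ Finset.range m, η i * ψ i x := by
      rw [Finset.sum_mul, ← Finset.sum_sub_distrib, Finset.mul_sum, ← Finset.sum_add_distrib]
      refine Finset.sum_congr rfl fun i hi => ?_
      rw [hcoef i (lt_of_lt_of_le (Finset.mem_range.mp hi) hmN), hψx i]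
      simp only [hr]; ring
    rw [hsum]
    have herr : |∑ i ∈ Finset.range m, η i * ψ i x| ≤ 1 := by
      refine (Finset.abs_sum_le_sum_abs _ _).trans ?_
      have : ∀ i ∈ Finset.range m, |η i * ψ i x| ≤ (C * B / 2^Q) * C := by
        intro i hi
        have hiN := lt_of_lt_of_le (Finset.mem_range.mp hi) hmN
        rw [abs_mul, hψx i, abs_mul, rr_abs, mul_one]
        exact mul_le_mul (hηb i hiN) (hC i hiN x) (abs_nonneg _) (by positivity)
      refine (Finset.sum_le_sum this).trans ?_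
      rw [Finset.sum_const, Finset.card_range, nsmul_eq_mul]
      refine le_trans ?_ hQP
      have h1 : (m:ℝ) ≤ N := by exact_mod_cast hmN
      have h2 : 0 ≤ C * B / 2^Q * C := by positivity
      calc (m:ℝ) * (C * B / 2^Q * C) ≤ N * (C * B / 2^Q * C) :=
            mul_le_mul_of_nonneg_right h1 h2
        _ = N * (C * B / 2^Q) * C := by ring
    have hEx : |E x| ≤ Real.sqrt K / 8 := by
      have hxb : ¬ ((K:ℝ)/64 ≤ E x * E x) := hxbad
      push Not at hxb
      apply abs_le_of_sq_le_sq _ (by positivity)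
      nlinarith
    have hθ0 : 0 ≤ ∑ i ∈ Finset.range m, q i * q i :=
      Finset.sum_nonneg fun i _ => mul_self_nonneg _
    have hθ1 : ∑ i ∈ Finset.range m, q i * q i ≤ 1 := by
      rw [← hq]
      exact Finset.sum_le_sum_of_subset_of_nonneg
        (Finset.range_subset_range.mpr hmN) (fun i _ _ => mul_self_nonneg _)
    have hmE : Real.sqrt K / 2 + E x / 2 ≤ ∑ i ∈ Finset.range m, q i * hf i x := hm
    set S := ∑ i ∈ Finset.range m, q i * hf i x
    set θ := ∑ i ∈ Finset.range m, q i * q i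
    have hθE : |θ * E x| ≤ Real.sqrt K / 8 := by
      rw [abs_mul, abs_of_nonneg hθ0]
      calc θ * |E x| ≤ 1 * |E x| := mul_le_mul_of_nonneg_right hθ1 (abs_nonneg _)
        _ ≤ _ := by rw [one_mul]; exact hEx
    have hlow : Real.sqrt K / 4 ≤ S - θ * E x := by
      have h1 := (abs_le.mp hEx).1
      have h2 := (abs_le.mp hθE).2
      linarith
    have hbig : 2 ≤ |F * rr (Q+1) x * (S - θ * E x)| := by
      rw [abs_mul, abs_mul, rr_abs, mul_one, abs_of_nonneg (by linarith : 0 ≤ S - θ * E x)]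
      have h1 : ρ * (Real.sqrt K / 4) ≤ |F| * (S - θ * E x) :=
        mul_le_mul hF hlow (by positivity) (abs_nonneg _)
      have h2 : 8 ≤ ρ * Real.sqrt K := by
        rw [div_le_iff₀ hρ] at hsK; linarith
      linarith
    have := abs_sub_abs_le_abs_sub (F * rr (Q+1) x * (S - θ * E x))
      (-(∑ i ∈ Finset.range m, η i * ψ i x))
    rw [abs_neg, sub_neg_eq_add] at this
    linarith

end Pool.Agent.W747.AO
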