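import Mathlib
set_option autoImplicit false
open MeasureTheory Set

namespace Pool.Agent.W747.AO

/-- dyadic cell index -/
noncomputable def fl (L : ℕ) (x : ℝ) : ℤ := ⌊(2:ℝ)^L * x⌋

lemma fl_eq_iff {L : ℕ} {x : ℝ} {p : ℤ} :
    fl L x = p ↔ (p:ℝ) ≤ 2^L * x ∧ 2^L * x < p + 1 := Int.floor_eq_iff

lemma fl_succ (L : ℕ) (x : ℝ) : fl L x = fl (L+1) x / 2 := by
  rw [fl_eq_iff]
  obtain ⟨h1, h2⟩ := fl_eq_iff.mp (rfl : fl (L+1) x = fl (L+1) x)
  set n := fl (L+1) x
  have e1 : 2 * (n / 2) ≤ n := by omega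
  have e2 : n ≤ 2 * (n/2) + 1 := by omega
  have e1' : (2:ℝ) * ((n/2 : ℤ) : ℝ) ≤ n := by exact_mod_cast e1
  have e2' : (n:ℝ) ≤ 2 * ((n/2 : ℤ) : ℝ) + 1 := by exact_mod_cast e2
  rw [pow_succ] at h1 h2
  constructor <;> linarith

lemma fl_le_of_eq {L M : ℕ} (h : L ≤ M) {x y : ℝ} (e : fl M x = fl M y) : fl L x = fl L y := by
  induction M, h using Nat.le_induction with
  | base => exact e
  | succ n hn ih => exact ih (by rw [fl_succ n x, fl_succ n y, e])

/-- indicator of a dyadic cell -/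
noncomputable def ind (L : ℕ) (p : ℤ) (x : ℝ) : ℝ := if fl L x = p then 1 else 0

lemma fl_eq_iff_mem {L : ℕ} {x : ℝ} {p : ℤ} :
    fl L x = p ↔ x ∈ Ico ((p:ℝ) / 2^L) ((p+1 : ℝ)/2^L) := by
  rw [fl_eq_iff, mem_Ico, div_le_iff₀ (by positivity), lt_div_iff₀ (by positivity),
    mul_comm x]

lemma ind_eq (L : ℕ) (p : ℤ) :
    ind L p = indicator (Ico ((p:ℝ) / 2^L) ((p+1 : ℝ)/2^L)) (fun _ => (1:ℝ)) := by
  funext x
  unfold ind
  by_cases h : fl L x = p
  · rw [if_pos h, indicator_of_mem (fl_eq_iff_mem.mp h)]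
  · rw [if_neg h, indicator_of_notMem (fun h' => h (fl_eq_iff_mem.mpr h'))]

lemma ind_measurable (L : ℕ) (p : ℤ) : Measurable (ind L p) := by
  rw [ind_eq]; exact measurable_const.indicator measurableSet_Ico

lemma ind_integrable (L : ℕ) (p : ℤ) : Integrable (ind L p) := by
  rw [ind_eq]
  refine (integrable_indicator_iff measurableSet_Ico).mpr ?_
  exact integrableOn_const (by simp)

lemma ind_integral (L : ℕ) (p : ℤ) : ∫ x, ind L p x = 1 / 2^L := by
  rw [ind_eq, integral_indicator measurableSet_Ico]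
  simp only [integral_const, MeasurableSet.univ, measureReal_restrict_apply, univ_inter,
    smul_eq_mul, mul_one]
  rw [Real.volume_real_Ico_of_le]
  · field_simp; ring
  · gcongr; linarith

/-- `Dy L u`: `u` is a dyadic step function of level `L` vanishing off `[0,1)`. -/
def Dy (L : ℕ) (u : ℝ → ℝ) : Prop :=
  (∀ x y, fl L x = fl L y → u x = u y) ∧ (∀ x, x ∉ Ico (0:ℝ) 1 → u x = 0)

lemma Dy.mono {L M : ℕ} {u : ℝ → ℝ} (h : Dy L u) (hLM : L ≤ M) : Dy M u :=
  ⟨fun x y e => h.1 x y (fl_le_of_eq hLM e), h.2⟩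

lemma Dy.add {L : ℕ} {u v : ℝ → ℝ} (hu : Dy L u) (hv : Dy L v) : Dy L (fun x => u x + v x) :=
  ⟨fun x y e => by simp only []; rw [hu.1 x y e, hv.1 x y e],
   fun x hx => by simp only []; rw [hu.2 x hx, hv.2 x hx, add_zero]⟩

lemma Dy.sub {L : ℕ} {u v : ℝ → ℝ} (hu : Dy L u) (hv : Dy L v) : Dy L (fun x => u x - v x) :=
  ⟨fun x y e => by simp only []; rw [hu.1 x y e, hv.1 x y e],
   fun x hx => by simp only []; rw [hu.2 x hx, hv.2 x hx, sub_zero]⟩

lemma Dy.mul {L : ℕ} {u v : ℝ → ℝ} (hu : Dy L u) (hv : Dy L v) : Dy L (fun x => u x * v x) :=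
  ⟨fun x y e => by simp only []; rw [hu.1 x y e, hv.1 x y e],
   fun x hx => by simp only []; rw [hu.2 x hx, zero_mul]⟩

lemma Dy.smul {L : ℕ} {u : ℝ → ℝ} (hu : Dy L u) (c : ℝ) : Dy L (fun x => c * u x) :=
  ⟨fun x y e => by simp only []; rw [hu.1 x y e],
   fun x hx => by simp only []; rw [hu.2 x hx, mul_zero]⟩

lemma Dy.zero (L : ℕ) : Dy L (fun _ => 0) := ⟨fun _ _ _ => rfl, fun _ _ => rfl⟩

lemma Dy.sum {ι : Type*} {L : ℕ} {s : Finset ι} {u : ι → ℝ → ℝ} (h : ∀ i ∈ s, Dy L (u i)) :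
    Dy L (fun x => ∑ i ∈ s, u i x) :=
  ⟨fun x y e => Finset.sum_congr rfl (fun i hi => (h i hi).1 x y e),
   fun x hx => Finset.sum_eq_zero (fun i hi => (h i hi).2 x hx)⟩

lemma Dy.ind {L : ℕ} {p : ℤ} (h0 : 0 ≤ p) (h1 : p < 2^L) : Dy L (ind L p) := by
  refine ⟨fun x y e => by unfold AO.ind; rw [e], fun x hx => ?_⟩
  unfold AO.ind
  rw [if_neg]
  intro h
  apply hx
  rw [fl_eq_iff] at h
  have h0' : (0:ℝ) ≤ p := by exact_mod_cast h0
  have h1' : (p:ℝ) + 1 ≤ 2^L := by exact_mod_cast h1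
  have h2 : (0:ℝ) < 2^L := by positivity
  constructor
  · by_contra hc
    push Not at hc
    nlinarith [h.1]
  · by_contra hc
    push Not at hc
    nlinarith [h.2]

lemma fl_center (L : ℕ) (p : ℤ) : fl L ((p:ℝ) / 2^L) = p := by
  rw [fl_eq_iff]
  have : (2:ℝ)^L * (p / 2^L) = p := by field_simp
  rw [this]; constructor <;> linarith

lemma Dy.expand {L : ℕ} {u : ℝ → ℝ} (h : Dy L u) :
    u = fun x => ∑ p ∈ Finset.range (2^L), u ((p:ℝ) / 2^L) * AO.ind L (p:ℤ) x := by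
  funext x
  by_cases hx : x ∈ Ico (0:ℝ) 1
  · have hfl0 : 0 ≤ fl L x := by
      unfold fl; apply Int.floor_nonneg.mpr; have := hx.1; positivity
    have hfl1 : fl L x < 2^L := by
      unfold fl; rw [Int.floor_lt]; push_cast
      have h2 : (0:ℝ) < 2^L := by positivity
      nlinarith [hx.2]
    obtain ⟨n, hn⟩ := Int.eq_ofNat_of_zero_le hfl0
    have hn1 : n < 2^L := by rw [hn] at hfl1; exact_mod_cast hfl1
    rw [Finset.sum_eq_single n]
    · have : u x = u ((n:ℝ)/2^L) := by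
        apply h.1
        have := fl_center L (n:ℤ)
        push_cast at this
        rw [this, hn]
      rw [this]
      unfold AO.ind
      rw [if_pos hn, mul_one]
    · intro b _ hb
      unfold AO.ind
      rw [if_neg, mul_zero]
      rw [hn]; intro e; apply hb; exact_mod_cast e.symm
    · intro hc; exact absurd (Finset.mem_range.mpr hn1) hc
  · rw [h.2 x hx]
    symm
    apply Finset.sum_eq_zero
    intro p hp
    rw [(Dy.ind (L := L) (p := (p:ℤ)) (by positivity)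
      (by have := Finset.mem_range.mp hp; exact_mod_cast this)).2 x hx, mul_zero]

lemma Dy.measurable {L : ℕ} {u : ℝ → ℝ} (h : Dy L u) : Measurable u := by
  rw [h.expand]
  exact Finset.measurable_fun_sum _ (fun p _ => (ind_measurable L p).const_mul _)

lemma Dy.integrable {L : ℕ} {u : ℝ → ℝ} (h : Dy L u) : Integrable u := by
  rw [h.expand]
  exact integrable_finsetSum _ (fun p _ => (ind_integrable L p).const_mul _)

lemma Dy.bdd {L : ℕ} {u : ℝ → ℝ} (h : Dy L u) : ∃ C : ℝ, 0 ≤ C ∧ ∀ x, |u x| ≤ C := by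
  refine ⟨∑ p ∈ Finset.range (2^L), |u ((p:ℝ) / 2^L)|, Finset.sum_nonneg (fun _ _ => abs_nonneg _),
    fun x => ?_⟩
  rw [congrFun h.expand x]
  refine (Finset.abs_sum_le_sum_abs _ _).trans (Finset.sum_le_sum fun p _ => ?_)
  rw [abs_mul]
  unfold AO.ind
  split_ifs
  · rw [abs_one, mul_one]
  · rw [abs_zero, mul_zero]; exact abs_nonneg _

/-- the Rademacher type function -/
noncomputable def rr (M : ℕ) (x : ℝ) : ℝ := if Even (fl M x) then -1 else 1

lemma rr_sq (M : ℕ) (x : ℝ) : rr M x * rr M x = 1 := by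
  unfold rr; split_ifs <;> norm_num

lemma rr_abs (M : ℕ) (x : ℝ) : |rr M x| = 1 := by
  unfold rr; split_ifs <;> norm_num

lemma Dy.mul_rr {L M : ℕ} {u : ℝ → ℝ} (h : Dy L u) (hLM : L ≤ M) :
    Dy M (fun x => u x * rr M x) :=
  ⟨fun x y e => by simp only []; rw [(h.mono hLM).1 x y e]; unfold rr; rw [e],
   fun x hx => by simp only []; rw [h.2 x hx, zero_mul]⟩

lemma ind_mul_rr (L : ℕ) (p : ℤ) (x : ℝ) :
    ind L p x * rr (L+1) x = ind (L+1) (2*p+1) x - ind (L+1) (2*p) x := by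
  unfold ind rr
  rw [fl_succ L x]
  set n := fl (L+1) x
  rcases Int.even_or_odd' n with ⟨k, hk | hk⟩
  · have he : Even n := ⟨k, by omega⟩
    rw [if_pos he]
    by_cases hp : k = p
    · subst hp
      rw [if_pos (by omega), if_neg (by omega), if_pos (by omega)]; ring
    · rw [if_neg (by omega), if_neg (by omega), if_neg (by omega)]; ring
  · have he : ¬ Even n := by rw [Int.not_even_iff_odd]; exact ⟨k, by omega⟩
    rw [if_neg he]
    by_cases hp : k = p
    · subst hp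
      rw [if_pos (by omega), if_pos (by omega), if_neg (by omega)]; ring
    · rw [if_neg (by omega), if_neg (by omega), if_neg (by omega)]; ring

lemma Dy.int_mul_rr {L M : ℕ} {u : ℝ → ℝ} (h : Dy L u) (hLM : L < M) :
    ∫ x, u x * rr M x = 0 := by
  obtain ⟨N, rfl⟩ : ∃ N, M = N + 1 := ⟨M - 1, by omega⟩
  have h' : Dy N u := h.mono (by omega)
  have e : (fun x => u x * rr (N+1) x) = fun x => ∑ p ∈ Finset.range (2^N),
      u ((p:ℝ) / 2^N) * (AO.ind (N+1) (2*(p:ℤ)+1) x - AO.ind (N+1) (2*(p:ℤ)) x) := by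
    funext x
    conv_lhs => rw [congrFun h'.expand x]
    rw [Finset.sum_mul]
    refine Finset.sum_congr rfl fun p _ => ?_
    rw [mul_assoc, ind_mul_rr]
  rw [e, integral_finset_sum]
  · apply Finset.sum_eq_zero
    intro p _
    rw [integral_const_mul, integral_sub (ind_integrable _ _) (ind_integrable _ _),
      ind_integral, ind_integral, sub_self, mul_zero]
  · intro p _
    exact ((ind_integrable _ _).sub (ind_integrable _ _)).const_mul _

end Pool.Agent.W747.AO
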