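import Pool.Agent.W747.AO.Dy
set_option autoImplicit false
open MeasureTheory Set

namespace Pool.Agent.W747.AO

lemma Dy.setInt {L : ℕ} {u : ℝ → ℝ} (h : Dy L u) :
    ∫ x in Icc (0:ℝ) 1, u x = ∫ x, u x :=
  setIntegral_eq_integral_of_forall_compl_eq_zero
    (fun x hx => h.2 x (fun h' => hx ⟨h'.1, h'.2.le⟩))

lemma Dy.intOn {L : ℕ} {u f : ℝ → ℝ} (h : Dy L u) (hf : IntegrableOn f (Icc (0:ℝ) 1)) :
    IntegrableOn (fun x => f x * u x) (Icc (0:ℝ) 1) := by
  obtain ⟨C, _, hC⟩ := h.bdd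
  exact Integrable.mul_bdd (c := C) hf h.measurable.aestronglyMeasurable
    (Filter.Eventually.of_forall fun x => by rw [Real.norm_eq_abs]; exact hC x)

lemma osc {L N : ℕ} {u f : ℝ → ℝ} {B C : ℝ} (h : Dy L u) (hLN : L ≤ N)
    (hC : ∀ x, |u x| ≤ C) (hC0 : 0 ≤ C) (hB : 0 ≤ B)
    (hf : ContinuousOn f (Icc 0 1))
    (hL : ∀ x ∈ Icc (0:ℝ) 1, ∀ y ∈ Icc (0:ℝ) 1, |f x - f y| ≤ B * |x - y|) :
    |∫ x in Icc (0:ℝ) 1, f x * (u x * rr (N+1) x)| ≤ C * B / 2^N := by
  have hu : Dy N u := h.mono hLN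
  set v : ℝ → ℝ := fun x => f ((fl N x : ℝ) / 2^N) * u x with hv
  have hvD : Dy N v := by
    refine ⟨fun x y e => ?_, fun x hx => ?_⟩
    · simp only [hv]; rw [hu.1 x y e, e]
    · simp only [hv]; rw [hu.2 x hx, mul_zero]
  have h0 : ∫ x in Icc (0:ℝ) 1, v x * rr (N+1) x = 0 := by
    rw [(hvD.mul_rr (Nat.le_succ N)).setInt]
    exact hvD.int_mul_rr (Nat.lt_succ_self N)
  have hfi : IntegrableOn f (Icc (0:ℝ) 1) := hf.integrableOn_Icc
  have hi1 : IntegrableOn (fun x => f x * (u x * rr (N+1) x)) (Icc (0:ℝ) 1) :=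
    (hu.mul_rr (Nat.le_succ N)).intOn hfi
  have hi2 : IntegrableOn (fun x => v x * rr (N+1) x) (Icc (0:ℝ) 1) :=
    (hvD.mul_rr (Nat.le_succ N)).integrable.integrableOn
  have e : ∫ x in Icc (0:ℝ) 1, f x * (u x * rr (N+1) x)
      = ∫ x in Icc (0:ℝ) 1, (f x * (u x * rr (N+1) x) - v x * rr (N+1) x) := by
    rw [integral_sub hi1 hi2, h0, sub_zero]
  rw [e]
  have hb : ∀ x ∈ Icc (0:ℝ) 1, ‖f x * (u x * rr (N+1) x) - v x * rr (N+1) x‖ ≤ C * B / 2^N := by
    intro x hx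
    by_cases hx1 : x ∈ Ico (0:ℝ) 1
    · have e2 : f x * (u x * rr (N+1) x) - v x * rr (N+1) x
          = (f x - f ((fl N x : ℝ) / 2^N)) * u x * rr (N+1) x := by simp only [hv]; ring
      rw [e2, Real.norm_eq_abs, abs_mul, rr_abs, mul_one, abs_mul]
      obtain ⟨g1, g2⟩ := fl_eq_iff.mp (rfl : fl N x = fl N x)
      have p2 : (0:ℝ) < 2^N := by positivity
      have hfl0 : (0:ℝ) ≤ (fl N x : ℝ) := by
        have : 0 ≤ fl N x := by
          unfold fl; apply Int.floor_nonneg.mpr; have := hx1.1; positivity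
        exact_mod_cast this
      have hle : (fl N x : ℝ) / 2^N ≤ x := by
        rw [div_le_iff₀ p2]; linarith
      have hge : x - (fl N x : ℝ) / 2^N ≤ 1 / 2^N := by
        rw [sub_le_iff_le_add, ← add_div, le_div_iff₀ p2]; linarith
      have hy : (fl N x : ℝ) / 2^N ∈ Icc (0:ℝ) 1 := ⟨by positivity, by linarith [hx.2]⟩
      have h3 := hL x hx _ hy
      have h4 : |x - (fl N x : ℝ) / 2^N| ≤ 1 / 2^N := by
        rw [abs_of_nonneg (by linarith)]; exact hge
      calc |f x - f ((fl N x : ℝ) / 2^N)| * |u x| ≤ (B * (1/2^N)) * C := by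
            refine mul_le_mul (h3.trans (mul_le_mul_of_nonneg_left h4 hB)) (hC x) (abs_nonneg _) ?_
            positivity
        _ = C * B / 2^N := by ring
    · have hux : u x = 0 := hu.2 x hx1
      simp only [hv]
      rw [hux]
      simp only [zero_mul, mul_zero, sub_zero, norm_zero]
      positivity
  have := norm_setIntegral_le_of_norm_le_const (μ := volume) (s := Icc (0:ℝ) 1) (by simp) hb
  rw [Real.norm_eq_abs] at this
  simpa using this

end Pool.Agent.W747.AO
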